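import Pool.Agent.W627.LT.Stm
import Pool.Agent.H343R2.EH.Defs

set_option autoImplicit false

open Finset Filter

namespace Pool.Agent.W83.LT

open Pool.Agent.H38R2.CG Pool.Agent.W627.LT

lemma half_card {D : ℕ} (hD : 1 < D) (χ : DirichletCharacter ℂ D) (h1 : χ ≠ 1)
    (hint : ∀ n : ℕ, 1 ≤ n → ∃ m : ℤ, χ (n : ZMod D) = (m : ℂ)) :
    2 * ((range D).filter (fun a : ℕ => a.Coprime D ∧ χ ((a : ℕ) : ZMod D) = -1)).card = Nat.totient D := by
  classical
  obtain ⟨n, rfl⟩ : ∃ n, D = n + 1 := ⟨D - 1, by omega⟩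
  have hsum : ∑ a ∈ range (n + 1), χ ((a : ℕ) : ZMod (n + 1)) = 0 := by
    rw [← Fin.sum_univ_eq_sum_range (fun a => χ ((a : ℕ) : ZMod (n + 1))) (n + 1)]
    have h2 := MulChar.sum_eq_zero_of_ne_one h1
    rw [← h2]
    refine Fintype.sum_equiv (Equiv.refl _) _ _ (fun x => ?_)
    congr 1
    exact ZMod.natCast_zmod_val (n := n + 1) x
  have hval : ∀ a ∈ range (n + 1), χ ((a : ℕ) : ZMod (n + 1)) =
      (if a.Coprime (n + 1) then 1 else 0) -
        2 * (if a.Coprime (n + 1) ∧ χ ((a : ℕ) : ZMod (n + 1)) = -1 then 1 else 0) := by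
    intro a ha
    by_cases hc : a.Coprime (n + 1)
    · have ha0 : 1 ≤ a := by
        rcases Nat.eq_zero_or_pos a with h0 | h0
        · subst h0
          rw [Nat.coprime_zero_left] at hc
          omega
        · exact h0
      have hu : IsUnit ((a : ℕ) : ZMod (n + 1)) := (ZMod.isUnit_iff_coprime a (n + 1)).2 hc
      obtain ⟨m, hm⟩ := hint a ha0
      have hnorm : ‖χ ((a : ℕ) : ZMod (n + 1))‖ = 1 := by
        obtain ⟨u, hu'⟩ := hu
        rw [← hu']
        exact DirichletCharacter.unit_norm_eq_one χ u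
      rw [hm] at hnorm
      have hm1 : |m| = 1 := by
        have : ((|m| : ℤ) : ℝ) = 1 := by
          rw [← hnorm]
          simp
        exact_mod_cast this
      rcases (abs_eq (by norm_num : (0:ℤ) ≤ 1)).1 hm1 with h3 | h3
      · have hne : ¬ (χ ((a : ℕ) : ZMod (n + 1)) = -1) := by
          rw [hm, h3]; norm_num
        rw [if_pos hc, if_neg (fun h => hne h.2), hm, h3]
        norm_num
      · have he : χ ((a : ℕ) : ZMod (n + 1)) = -1 := by
          rw [hm, h3]; norm_num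
        rw [if_pos hc, if_pos ⟨hc, he⟩, he]
        norm_num
    · have hu : ¬ IsUnit ((a : ℕ) : ZMod (n + 1)) := fun h =>
        hc ((ZMod.isUnit_iff_coprime a (n + 1)).1 h)
      rw [if_neg hc, if_neg (fun h => hc h.1), χ.map_nonunit hu]
      norm_num
  rw [Finset.sum_congr rfl hval, Finset.sum_sub_distrib, ← Finset.mul_sum, Finset.sum_boole,
    Finset.sum_boole] at hsum
  have htot : ((range (n + 1)).filter (fun a : ℕ => a.Coprime (n + 1))).card =
      Nat.totient (n + 1) := by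
    rw [Nat.totient_eq_card_coprime]
    congr 1
    ext a
    simp only [mem_filter, Nat.coprime_comm]
  rw [htot] at hsum
  have h5 : (2 : ℂ) * (((range (n + 1)).filter
      (fun a : ℕ => a.Coprime (n + 1) ∧ χ ((a : ℕ) : ZMod (n + 1)) = -1)).card : ℂ) =
      (Nat.totient (n + 1) : ℂ) := by
    linear_combination -hsum
  exact_mod_cast h5

theorem ltn (hS : ∃ x0 : ℕ, ∀ x : ℕ, x0 ≤ x → ∀ q : ℕ, 1 ≤ q → (q : ℝ) ≤ Real.log x ^ 2 →
      ∀ a : ℕ, a < q → a.Coprime q →
        |H343E.piAP x q a - H343E.pi1 x / (Nat.totient q : ℝ)| ≤ x / Real.log x ^ 6)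
    (hKR : Pool.Agent.H38R2.CG.P_KR) (hP : Pool.Agent.W627.LT.S_P) (D : ℕ)
    (hD : Pool.Agent.H38R2.CG.IsFund D) :
    ∃ y0 : ℕ, ∀ y : ℕ, y0 ≤ y → (y : ℝ) / (5 * Real.log y) ≤
      (((Pool.Agent.W627.LT.PQ y).filter (fun p => Pool.Agent.H38R2.CG.chi D p = -1)).card : ℝ) := by
  classical
  obtain ⟨x0, hx0⟩ := hS
  obtain ⟨y1, hy1⟩ := hP
  obtain ⟨χ, hχ1, hχ⟩ := hKR D hD
  have hD1 : 1 < D := hD.1
  have hA := half_card hD1 χ hχ1 (fun n hn => ⟨_, hχ n hn⟩)
  set A : Finset ℕ := (range D).filter (fun a : ℕ => a.Coprime D ∧ χ ((a : ℕ) : ZMod D) = -1) with hAdef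
  have hlog : Tendsto (fun y : ℕ => Real.log y) atTop atTop :=
    Real.tendsto_log_atTop.comp tendsto_natCast_atTop_atTop
  have e1 : ∀ᶠ y : ℕ in atTop, (D : ℝ) + 20 * Nat.totient D + 1 ≤ Real.log y :=
    hlog.eventually_ge_atTop _
  have e2 : ∀ᶠ y : ℕ in atTop, ‖Real.log (y : ℝ)‖ ≤ 1 / 40 * ‖((y : ℕ) : ℝ)‖ :=
    tendsto_natCast_atTop_atTop.eventually
      (Real.isLittleO_log_id_atTop.bound (by norm_num : (0 : ℝ) < 1 / 40))
  obtain ⟨y2, hy2⟩ := eventually_atTop.1 (e1.and e2)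
  refine ⟨max (max x0 y1) y2, fun y hy => ?_⟩
  have hyx0 : x0 ≤ y := (le_max_left _ _).trans ((le_max_left _ _).trans hy)
  have hyy1 : y1 ≤ y := (le_max_right _ _).trans ((le_max_left _ _).trans hy)
  obtain ⟨hL, hL2⟩ := hy2 y ((le_max_right _ _).trans hy)
  have hφ0 : (0 : ℝ) ≤ Nat.totient D := Nat.cast_nonneg _
  have hφpos : (0 : ℝ) < Nat.totient D := by
    exact_mod_cast Nat.totient_pos.2 (by omega)
  have hDr : (0 : ℝ) ≤ D := Nat.cast_nonneg _
  have hLpos : 1 ≤ Real.log y := by linarith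
  have hL0 : 0 < Real.log y := by linarith
  have hyr : (0 : ℝ) ≤ y := Nat.cast_nonneg _
  rw [Real.norm_of_nonneg hL0.le, Real.norm_of_nonneg hyr] at hL2
  -- the bound in each class
  have hcls : ∀ a ∈ A, H343E.pi1 y / (Nat.totient D : ℝ) - y / Real.log y ^ 6 ≤
      H343E.piAP y D a := by
    intro a ha
    rw [hAdef, mem_filter, mem_range] at ha
    have h2 : (D : ℝ) ≤ Real.log y ^ 2 := by nlinarith
    have h3 := hx0 y hyx0 D (by omega) h2 a ha.1 ha.2.1
    have h4 := (abs_le.1 h3).1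
    linarith
  have hsum : (A.card : ℝ) * (H343E.pi1 y / (Nat.totient D : ℝ) - y / Real.log y ^ 6) ≤
      ∑ a ∈ A, H343E.piAP y D a := by
    rw [← nsmul_eq_mul]
    exact Finset.card_nsmul_le_sum _ _ _ hcls
  -- the union of the classes
  let P : ℕ → Finset ℕ := fun a => (Icc 1 y).filter (fun p => p.Prime ∧ p ≡ a [MOD D])
  have hU : ∑ a ∈ A, H343E.piAP y D a = ((A.biUnion P).card : ℝ) := by
    rw [Finset.card_biUnion]
    · push_cast
      rfl
    · intro a ha b hb hab
      rw [hAdef, coe_filter] at ha hb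
      rw [Function.onFun, Finset.disjoint_left]
      intro p hp hp'
      simp only [P, mem_filter] at hp hp'
      have h5 : a ≡ b [MOD D] := hp.2.2.symm.trans hp'.2.2
      exact hab (Nat.ModEq.eq_of_lt_of_lt h5 (mem_range.1 ha.1) (mem_range.1 hb.1))
  have hsub : (A.biUnion P).card ≤
      ((Pool.Agent.W627.LT.PQ y).filter (fun p => Pool.Agent.H38R2.CG.chi D p = -1)).card + 1 := by
    have h6 : A.biUnion P ⊆ insert 2
        ((Pool.Agent.W627.LT.PQ y).filter (fun p => Pool.Agent.H38R2.CG.chi D p = -1)) := by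
      intro p hp
      rw [mem_biUnion] at hp
      obtain ⟨a, ha, hp⟩ := hp
      rw [hAdef, mem_filter] at ha
      simp only [P, mem_filter, mem_Icc] at hp
      obtain ⟨⟨hp1, hp2⟩, hpp, hpa⟩ := hp
      have h7 : ((p : ℕ) : ZMod D) = ((a : ℕ) : ZMod D) := (ZMod.natCast_eq_natCast_iff _ _ _).2 hpa
      have h8 : χ ((p : ℕ) : ZMod D) = -1 := by rw [h7]; exact ha.2.2
      rw [hχ p hp1] at h8
      have h9 : Pool.Agent.H38R2.CG.chi D p = -1 := by exact_mod_cast h8
      rw [mem_insert, mem_filter]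
      by_cases hp22 : p = 2
      · exact Or.inl hp22
      · right
        refine ⟨?_, h9⟩
        unfold Pool.Agent.W627.LT.PQ
        rw [mem_filter, mem_Icc]
        have := hpp.two_le
        exact ⟨⟨by omega, hp2⟩, hpp⟩
    exact (card_le_card h6).trans (card_insert_le _ _)
  have hpi : (y : ℝ) / (2 * Real.log y) ≤ H343E.pi1 y := by
    refine (hy1 y hyy1).trans ?_
    unfold H343E.pi1 Pool.Agent.W627.LT.PQ
    have : (Icc 3 y).filter Nat.Prime ⊆ (Icc 1 y).filter (fun p => p.Prime) := by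
      apply filter_subset_filter
      exact Icc_subset_Icc_left (by norm_num)
    exact_mod_cast card_le_card this
  have hAr : (2 : ℝ) * A.card = Nat.totient D := by exact_mod_cast hA
  have hsub' : ((A.biUnion P).card : ℝ) ≤
      (((Pool.Agent.W627.LT.PQ y).filter
        (fun p => Pool.Agent.H38R2.CG.chi D p = -1)).card : ℝ) + 1 := by
    exact_mod_cast hsub
  -- the final computation
  have hA2 : (A.card : ℝ) = Nat.totient D / 2 := by linarith
  have h10 : (A.card : ℝ) * (H343E.pi1 y / (Nat.totient D : ℝ) - y / Real.log y ^ 6) =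
      H343E.pi1 y / 2 - (Nat.totient D / 2) * (y / Real.log y ^ 6) := by
    rw [hA2]
    field_simp
  rw [h10, hU] at hsum
  have h11 : (Nat.totient D / 2 : ℝ) * (y / Real.log y ^ 6) ≤ y / (40 * Real.log y) := by
    have h12 : 20 * (Nat.totient D : ℝ) ≤ Real.log y ^ 5 := by
      have h13 : Real.log y ≤ Real.log y ^ 5 := le_self_pow₀ hLpos (by norm_num)
      linarith
    rw [← mul_div_assoc, div_le_div_iff₀ (by positivity) (by positivity)]
    have h14 : 0 ≤ (y : ℝ) * Real.log y := by positivity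
    have h15 := mul_le_mul_of_nonneg_left h12 h14
    nlinarith [h15]
  have h16 : (1 : ℝ) ≤ y / (40 * Real.log y) := by
    rw [le_div_iff₀ (by positivity)]
    linarith
  have h17 : (y : ℝ) / (2 * Real.log y) = 20 * (y / (40 * Real.log y)) := by
    field_simp; ring
  have h18 : (y : ℝ) / (5 * Real.log y) = 8 * (y / (40 * Real.log y)) := by
    field_simp; ring
  rw [h17] at hpi
  rw [h18]
  linarith

end Pool.Agent.W83.LT
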